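import Mathlib

set_option autoImplicit false
open TensorProduct Coalgebra HopfAlgebra LinearMap

namespace Pool.Agent.H.MP_078f6d_al

variable {k H : Type} [Field k] [Ring H] [HopfAlgebra k H]

/-- The map `x ⊗ y ↦ x₁ ⊗ F(x₂) y`. -/
noncomputable def Ph (F : H →ₗ[k] H) : H ⊗[k] H →ₗ[k] H ⊗[k] H :=
  (mul' k H).lTensor H ∘ₗ (TensorProduct.assoc k H H H).toLinearMap ∘ₗ (F.lTensor H ∘ₗ comul).rTensor H

theorem as (t : H ⊗[k] H) (y : H) :
    (mul' k H).lTensor H (TensorProduct.assoc k H H H (t ⊗ₜ y)) = t * (1 ⊗ₜ y) := by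
  induction t with
  | zero => simp
  | tmul a b => simp
  | add a b p q => simp only [add_tmul, map_add, p, q, add_mul]

theorem Ph_t (F : H →ₗ[k] H) (x y : H) : Ph F (x ⊗ₜ y) = F.lTensor H (comul x) * (1 ⊗ₜ y) := by
  simp [Ph, as]

theorem Ph_c (F G : H →ₗ[k] H) (h : mul' k H ∘ₗ TensorProduct.map F G ∘ₗ comul = Algebra.linearMap k H ∘ₗ counit)
    (t : H ⊗[k] H) : Ph F (Ph G t) = t := by
  induction t with
  | zero => simp
  | add a b p q => simp only [map_add, p, q]
  | tmul x y =>
    have : ∀ t : H ⊗[k] H, Ph F (G.lTensor H t * (1 ⊗ₜ y)) = (mul' k H ∘ₗ TensorProduct.map F G).lTensor H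
        (TensorProduct.assoc k H H H ((comul (R := k)).rTensor H t)) * (1 ⊗ₜ y) := fun t => by
      induction t with
      | zero => simp
      | add a b p q => simp only [map_add, add_mul, p, q]
      | tmul a b =>
        simp only [lTensor_tmul, Algebra.TensorProduct.tmul_mul_tmul, mul_one, Ph_t, rTensor_tmul]
        induction (comul a : H ⊗[k] H) with
        | zero => simp
        | add a b p q => simp only [map_add, add_mul, add_tmul, p, q]
        | tmul u v => simp [mul_assoc]
    rw [Ph_t G, this, coassoc_apply, ← comp_apply, ← lTensor_comp, comp_assoc, h, lTensor_comp, comp_apply,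
      lTensor_counit_comul]
    simp

theorem ev_l (x y : H) : TensorProduct.lid k H ((counit (R := k)).rTensor H (comul x * (1 ⊗ₜ y))) = x * y := by
  have : ∀ t : H ⊗[k] H, TensorProduct.lid k H ((counit (R := k)).rTensor H (t * (1 ⊗ₜ y))) =
      TensorProduct.lid k H ((counit (R := k)).rTensor H t) * y := fun t => by
    induction t with
    | zero => simp
    | add a b p q => simp only [map_add, add_mul, p, q]
    | tmul u v => simp
  simp [this]

theorem ev_r (x y : H) :
    TensorProduct.rid k H ((counit (R := k)).lTensor H (comul x * (1 ⊗ₜ y))) = counit (R := k) y • x := by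
  have : ∀ t : H ⊗[k] H, TensorProduct.rid k H ((counit (R := k)).lTensor H (t * (1 ⊗ₜ y))) =
      counit (R := k) y • TensorProduct.rid k H ((counit (R := k)).lTensor H t) := fun t => by
    induction t with
    | zero => simp
    | add a b p q => simp only [map_add, add_mul, p, q, smul_add]
    | tmul u v => simp [smul_smul, mul_comm]
  simp [this]

theorem ev_s (x y : H) : mul' k H ((antipode k).rTensor H (comul x * (1 ⊗ₜ y))) = counit (R := k) x • y := by
  have : ∀ t : H ⊗[k] H, mul' k H ((antipode k).rTensor H (t * (1 ⊗ₜ y))) =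
      mul' k H ((antipode k).rTensor H t) * y := fun t => by
    induction t with
    | zero => simp
    | add a b p q => simp only [map_add, add_mul, p, q]
    | tmul u v => simp [mul_assoc]
  simp [this, Algebra.smul_def]

theorem main {ι : Type} (b : Module.Basis ι k H) (h : ∀ i j, ∃ i' j', comul (b i) * (1 ⊗ₜ b j) = b i' ⊗ₜ[k] b j') :
    ∃ (l : k) (C : Finset ι), l ≠ 0 ∧ 1 = ∑ c ∈ C, l • b c ∧ ∀ i, counit (R := k) (l • b i) = 0 ∨
      counit (R := k) (l • b i) = 1 := by
  classical
  choose f g h using h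
  let B := b.tensorProduct b
  have hB : ∀ p : ι × ι, Ph id (B p) = B (f p.1 p.2, g p.1 p.2) := fun ⟨i, j⟩ => by simp [B, Ph_t, h]
  have inj : ∀ p q : ι × ι, (f p.1 p.2, g p.1 p.2) = (f q.1 q.2, g q.1 q.2) → p = q := fun p q e => by
    have := fun t => Ph_c (antipode k) id (mul_antipode_rTensor_comul (R := k) (A := H)) t
    exact B.injective (by rw [← this (B p), hB, e, ← hB, this])
  let a := b.repr 1
  have one : ∑ c ∈ a.support, a c • b c = 1 := b.linearCombination_repr 1
  have mu : ∀ i j, b i * b j = counit (R := k) (b (f i j)) • b (g i j) := fun i j => by rw [← ev_l (k := k), h]; simp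
  have re : ∀ i j, counit (R := k) (b (g i j)) • b (f i j) = counit (R := k) (b j) • b i := fun i j => by
    rw [← ev_r (b i), h]; simp
  have s1 : ∀ c ∈ a.support, ∀ j, g c j = j ∧ a (f c j) = a c := fun c hc j => by
    have e : ∑ c ∈ a.support, a c • B (f c j, g c j) = 1 ⊗ₜ b j := by
      have : Ph id ((1 : H) ⊗ₜ[k] b j) = 1 ⊗ₜ b j := by simp [Ph_t]
      rw [← this, ← one, sum_tmul, map_sum]
      exact Finset.sum_congr rfl fun c _ => by rw [← smul_tmul', map_smul, ← hB (c, j)]; simp [B]
    have := congrArg (fun t => B.repr t (f c j, g c j)) e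
    simp only [map_sum, map_smul, Module.Basis.repr_self, Finsupp.finsetSum_apply, Finsupp.smul_apply,
      Finsupp.single_apply, smul_eq_mul] at this
    rw [Finset.sum_eq_single c (fun d _ n => by
      rw [if_neg fun e => n (congrArg Prod.fst (inj (d, j) (c, j) e)), mul_zero]) fun n => (n hc).elim] at this
    simp only [if_true, mul_one, B, Module.Basis.tensorProduct_repr_tmul_apply, Module.Basis.repr_self,
      Finsupp.single_apply, smul_eq_mul] at this
    split_ifs at this with e
    · exact ⟨e.symm, by simpa using this.symm⟩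
    · exact (Finsupp.mem_support_iff.1 hc (by simpa using this)).elim
  have ex : ∀ i z, (if i = z then 1 else 0) = ∑ c ∈ a.support,
      a c * (counit (R := k) (b (f i c)) * if g i c = z then 1 else 0) := fun i z => by
    have : b i = ∑ c ∈ a.support, a c • (b i * b c) := by
      simp only [← mul_smul_comm, ← Finset.mul_sum, one, mul_one]
    have := congrArg (fun t => b.repr t z) this
    simpa only [mu, map_sum, map_smul, Module.Basis.repr_self, Finsupp.finsetSum_apply, Finsupp.smul_apply,
      Finsupp.single_apply, smul_eq_mul] using this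
  have s2 : ∀ c ∈ a.support, ∀ d ∈ a.support, a d * counit (R := k) (b (f c d)) = if c = d then 1 else 0 :=
    fun c hc d hd => by
      rw [ex, Finset.sum_eq_single d (fun x hx n => by rw [(s1 c hc x).1, if_neg n]; simp) fun n => (n hd).elim,
        (s1 c hc d).1, if_pos rfl, mul_one]
  have or : ∀ c ∈ a.support, ∀ d ∈ a.support, c ≠ d → b c * b d = 0 := fun c hc d hd n => by
    have := s2 c hc d hd
    rw [if_neg n, mul_eq_zero, or_iff_right (Finsupp.mem_support_iff.1 hd)] at this
    rw [mu, this, zero_smul]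
  obtain ⟨o, ho, eo⟩ : ∃ o ∈ a.support, counit (R := k) (b o) ≠ 0 := by
    by_contra! n
    have := congrArg (counit (R := k)) one
    rw [map_sum, Finset.sum_eq_zero fun c hc => by simp [n c hc]] at this
    simp at this
  have un : ∀ c ∈ a.support, counit (R := k) (b c) ≠ 0 → c = o := fun c hc e => by_contra fun n => by
    have := congrArg (counit (R := k)) (or c hc o ho n)
    simp [e, eo] at this
  have ff : ∀ c ∈ a.support, f c c = o := fun c hc => un _
    (Finsupp.mem_support_iff.2 ((s1 c hc c).2 ▸ Finsupp.mem_support_iff.1 hc)) fun z => by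
      simpa [z] using s2 c hc c hc
  have cs : ∀ c ∈ a.support, a c = a o := fun c hc => by rw [← (s1 c hc c).2, ff c hc]
  have eo' : a o * counit (R := k) (b o) = 1 := by simpa [ff o ho] using s2 o ho o ho
  refine ⟨a o, a.support, Finsupp.mem_support_iff.1 ho,
    one.symm.trans (Finset.sum_congr rfl fun c hc => by rw [cs c hc]), fun i => or_iff_not_imp_left.2 fun n => ?_⟩
  have r := re i o
  have fi : f i o = i := by_contra fun x => eo (by
    simpa [Finsupp.single_apply, x] using (congrArg (fun t => b.repr t i) r).symm)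
  have := ex i (g i o)
  rw [Finset.sum_eq_single o (fun c hc x => ?_) fun n => (n ho).elim, fi, if_pos rfl, mul_one] at this
  · rw [map_smul, smul_eq_mul] at n ⊢
    split_ifs at this
    · exact this.symm
    · exact (n this.symm).elim
  · split_ifs with e
    · have r' := re i c
      rw [fi] at r
      have e1 : counit (R := k) (b (g i o)) = counit (R := k) (b o) := smul_left_injective k (b.ne_zero i) r
      rw [e, e1, of_not_not fun z => x (un c hc z), zero_smul] at r'
      exact (b.ne_zero _ ((smul_eq_zero.1 r').resolve_left eo)).elim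
    · simp

theorem surj {ι : Type} (b : Module.Basis ι k H) (h : ∀ i j, ∃ i' j', comul (b i) * (1 ⊗ₜ b j) = b i' ⊗ₜ[k] b j')
    (x y : ι) : ∃ i j, comul (b i) * (1 ⊗ₜ b j) = b x ⊗ₜ[k] b y := by
  classical
  choose f g h using h
  let B := b.tensorProduct b
  have hB : ∀ p : ι × ι, Ph id (B p) = B (f p.1 p.2, g p.1 p.2) := fun ⟨i, j⟩ => by simp [B, Ph_t, h]
  by_contra! n
  have := Ph_c id (antipode k) (mul_antipode_lTensor_comul (R := k) (A := H)) (B (x, y))
  have z : B.coord (x, y) ∘ₗ Ph id = 0 := B.ext fun p => by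
    have : (f p.1 p.2, g p.1 p.2) ≠ (x, y) := fun e => n p.1 p.2 (by
      obtain ⟨e1, e2⟩ := Prod.mk.inj e
      rw [h, e1, e2])
    simp [hB, this]
  simpa [this] using LinearMap.congr_fun z (Ph (antipode k) (B (x, y)))

theorem pos {ι : Type} (b : Module.Basis ι k H) (h : ∀ i j, ∃ i' j', comul (b i) * (1 ⊗ₜ b j) = b i' ⊗ₜ[k] b j') :
    ∃ B : Module.Basis ι k H, (∀ x, ∃ n : ℕ, B.repr 1 x = n) ∧ (∀ x, ∃ n : ℕ, counit (R := k) (B x) = n) ∧
      (∀ x y z, ∃ n : ℕ, B.repr (B x * B y) z = n) ∧
      (∀ x p, ∃ n : ℕ, (B.tensorProduct B).repr (comul (B x)) p = n) ∧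
      ∀ x y, ∃ n : ℕ, B.repr (antipode k (B x)) y = n := by
  classical
  obtain ⟨l, C, l0, one, e⟩ := main b h
  let B := b.unitsSMul fun _ => Units.mk0 l l0
  have hB : ∀ i, B i = l • b i := fun i => by simp [B, Module.Basis.unitsSMul_apply]
  simp only [← hB] at one e
  have sc : ∀ i j x y, comul (b i) * (1 ⊗ₜ b j) = b x ⊗ₜ[k] b y → comul (B i) * (1 ⊗ₜ B j) = B x ⊗ₜ[k] B y :=
    fun i j x y p => by simp [hB, ← smul_tmul', p]
  have e' : ∀ i, ∃ n : ℕ, counit (R := k) (B i) = n := fun i => (e i).elim (fun p => ⟨0, by simp [p]⟩)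
    fun p => ⟨1, by simp [p]⟩
  have sg : ∀ {κ V : Type} [AddCommGroup V] [Module k V] (D : Module.Basis κ k V) (u : ι → V),
      (∀ c, ∃ (n : ℕ) (p : κ), u c = (n : k) • D p) → ∀ z, ∃ n : ℕ, D.repr (∑ c ∈ C, u c) z = n :=
    fun D u hu z => by
      choose n p hu using hu
      exact ⟨∑ c ∈ C, if p c = z then n c else 0, by simp [hu, Finsupp.single_apply]⟩
  refine ⟨B, fun x => ?_, e', fun x y z => ?_, fun x p => ?_, fun x y => ?_⟩
  · rw [one]; exact sg B _ (fun c => ⟨1, c, by simp⟩) x
  · obtain ⟨i, j, p⟩ := h x y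
    obtain ⟨n, hn⟩ := e' i
    rw [← ev_l (k := k), sc _ _ _ _ p]
    exact ⟨if j = z then n else 0, by simp [hn, Finsupp.single_apply]⟩
  · rw [← mul_one (comul (B x)), Algebra.TensorProduct.one_def]
    nth_rw 2 [one]
    rw [tmul_sum, Finset.mul_sum]
    exact sg _ _ (fun c => (h x c).elim fun i q => q.elim fun j q => ⟨1, (i, j), by simp [sc _ _ _ _ q]⟩) p
  · rw [← mul_one (antipode k (B x)), one, Finset.mul_sum]
    refine sg B _ (fun c => ?_) y
    obtain ⟨i, j, p⟩ := surj b h x c
    obtain ⟨n, hn⟩ := e' i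
    exact ⟨n, j, by rw [← hn, ← ev_s, sc _ _ _ _ p]; simp⟩

end Pool.Agent.H.MP_078f6d_al
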